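import Pool.Agent.H62.CYC.DefsQ
import Pool.Graph.R_seed8.W707.TV.Gam
import Pool.Graph.R_seed8.W973.VcRect

/-!
# Project CYC, module RES2: the contour integral as a sum of residues
-/

set_option autoImplicit false

namespace Pool.Agent.H17.CYC

open Filter Finset Pool.Agent.W709.VC Pool.Agent.W707.TV Pool.Agent.H62.CYC
open scoped Real Topology

/-- the exponential factor -/
noncomputable def EX (p M : ℕ) (ψ : ℂ) : ℂ :=
  Complex.exp (Complex.I * p * Rh M * ψ ^ 2 / (8 * π))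

lemma EX_diff (p M : ℕ) : Differentiable ℂ (EX p M) := by
  unfold EX
  fun_prop

lemma EX_neg (p M : ℕ) (w : ℂ) : EX p M (-w) = EX p M w := by
  unfold EX
  congr 1
  ring

lemma zz_ps (M j : ℕ) : zz (2 * M + 1) 2 j = (ps M j : ℂ) := by
  unfold zz ps
  push_cast
  ring

lemma ps_pos (M j : ℕ) : 0 < ps M j := by
  unfold ps
  have := Real.pi_pos
  positivity

lemma ps_lt {M j : ℕ} (hj : j < M) : ps M j < 2 * π := by
  have h := zz_mem hj
  rw [zz_ps, Complex.ofReal_re] at h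
  exact h.2.1

lemma ps_lt_pi {M k j : ℕ} (hk : M + 1 ≤ 2 * k) (hj : j < M - k) : ps M j < π := by
  unfold ps
  have hp := Real.pi_pos
  rw [div_lt_iff₀ (by positivity)]
  have h1 : 4 * j + 2 < 2 * M + 1 := by omega
  have h2 : (4 * j + 2 : ℝ) < 2 * M + 1 := by exact_mod_cast h1
  nlinarith

lemma ps_ne_pi (M j : ℕ) : ps M j ≠ π := by
  unfold ps
  intro h
  have hp := Real.pi_pos
  rw [div_eq_iff (by positivity)] at h
  have h1 : (2 * (2 * j + 1) : ℝ) = 2 * M + 1 := by
    have : π * (2 * (2 * j + 1)) = π * (2 * M + 1) := by linarith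
    exact mul_left_cancel₀ hp.ne' this
  have h2 : 2 * (2 * j + 1) = 2 * M + 1 := by exact_mod_cast h1
  omega

lemma Bd_shift {h : ℝ} {ψ : ℂ} (hψ : ψ ∈ Bd (-π) π (-h) h) : ψ + π ∈ Bd 0 (2 * π) (-h) h := by
  rcases hψ with ⟨x, hx, hz⟩ | ⟨x, hx, hz⟩ | ⟨y, hy, hz⟩ | ⟨y, hy, hz⟩
  · refine Or.inl ⟨x + π, ?_, ?_⟩
    · rw [Set.uIcc_of_le (by linarith [Real.pi_pos])] at hx ⊢
      constructor <;> linarith [hx.1, hx.2]
    · rw [hz]; push_cast; ring
  · refine Or.inr (Or.inl ⟨x + π, ?_, ?_⟩)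
    · rw [Set.uIcc_of_le (by linarith [Real.pi_pos])] at hx ⊢
      constructor <;> linarith [hx.1, hx.2]
    · rw [hz]; push_cast; ring
  · refine Or.inr (Or.inr (Or.inl ⟨y, hy, ?_⟩))
    rw [hz]; push_cast; ring
  · refine Or.inr (Or.inr (Or.inr ⟨y, hy, ?_⟩))
    rw [hz]; push_cast; ring

/-- no zeros of `cos ψ - cos w` on the boundary -/
lemma bdp_ne {w h : ℝ} {ψ : ℂ} (hh : 0 < h) (h0 : 0 < w) (h1 : w < 2 * π) (h2 : w ≠ π)
    (hψ : ψ ∈ Bd (-π) π (-h) h) : Complex.cos ψ ≠ Complex.cos w := by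
  have hp := Real.pi_pos
  intro he
  rcases lt_or_gt_of_ne h2 with h3 | h3
  · refine bd_ne (z := ((w + π : ℝ) : ℂ)) (h := h) ?_ ?_ ?_ (Bd_shift hψ) ?_
    · rw [Complex.ofReal_re]; linarith
    · rw [Complex.ofReal_re]; linarith
    · rw [Complex.ofReal_im]; simpa using hh
    · push_cast
      rw [Complex.cos_add_pi, Complex.cos_add_pi, he]
  · refine bd_ne (z := ((w - π : ℝ) : ℂ)) (h := h) ?_ ?_ ?_ (Bd_shift hψ) ?_
    · rw [Complex.ofReal_re]; linarith
    · rw [Complex.ofReal_re]; linarith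
    · rw [Complex.ofReal_im]; simpa using hh
    · push_cast
      rw [Complex.cos_add_pi, Complex.cos_sub_pi, he]

/-- the residue theorem for `g cot ((ψ - w) / 2) / 2` on the shifted rectangle -/
lemma rect_KK {g : ℂ → ℂ} (hg : Differentiable ℂ g) {w h : ℝ} (hh : 0 < h) (h0 : -π < w)
    (h1 : w < π) : rect (fun ψ => g ψ * KK w ψ) (-π) π (-h) h = 2 * π * Complex.I * g w := by
  have hR : S_RECT := Pool.Agent.W973.VcRect.rect
  have h2 := hR (fun z => g (z - π)) ((w + π : ℝ) : ℂ) h (by fun_prop)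
    (by rw [Complex.ofReal_re]; linarith) (by rw [Complex.ofReal_re]; linarith)
    (by rw [Complex.ofReal_im]; simpa using hh)
  have hs := rect_shift (fun z => g (z - π) * (Complex.cos ((z - ((w + π : ℝ) : ℂ)) / 2) /
    (2 * Complex.sin ((z - ((w + π : ℝ) : ℂ)) / 2)))) (-π) π (-h) h π
  have e0 : -π + π = 0 := by ring
  have e1 : π + π = 2 * π := by ring
  rw [e0, e1, h2] at hs
  have e2 : (fun z : ℂ => g (z + π - π) * (Complex.cos ((z + π - ((w + π : ℝ) : ℂ)) / 2) /
    (2 * Complex.sin ((z + π - ((w + π : ℝ) : ℂ)) / 2)))) = fun ψ => g ψ * KK w ψ := by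
    funext z
    unfold KK
    have e3 : z + π - ((w + π : ℝ) : ℂ) = z - w := by push_cast; ring
    rw [e3, add_sub_cancel_right]
  have e4 : ((w + π : ℝ) : ℂ) - π = w := by push_cast; ring
  rw [e4] at hs
  rw [← hs]
  congr 1
  exact e2.symm

lemma cos_ne {z : ℂ} (h0 : -(π / 2) < z.re) (h1 : z.re < π / 2) : Complex.cos z ≠ 0 := by
  intro h
  rw [Complex.cos_eq_zero_iff] at h
  obtain ⟨n, hn⟩ := h
  have h2 : z.re = (2 * n + 1) * π / 2 := by
    rw [hn]
    have : ((2 * (n : ℂ) + 1) * π / 2) = (((2 * n + 1) * π / 2 : ℝ) : ℂ) := by push_cast; ring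
    rw [this, Complex.ofReal_re]
  have hp := Real.pi_pos
  rw [h2] at h0 h1
  have h3 : (n : ℝ) < 0 := by
    by_contra hc
    push Not at hc
    nlinarith
  have h4 : (-1 : ℝ) < n := by
    by_contra hc
    push Not at hc
    nlinarith
  have h5 : n < 0 := by exact_mod_cast h3
  have h6 : -1 < n := by exact_mod_cast h4
  omega

lemma rect_tan {g : ℂ → ℂ} (hg : Differentiable ℂ g) {w h : ℝ} (h0 : -π < w)
    (h1 : w < π) : rect (fun ψ => g ψ * (Complex.sin ((ψ - w) / 4) / Complex.cos ((ψ - w) / 4)))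
      (-π) π (-h) h = 0 := by
  have hp := Real.pi_pos
  have key := Complex.integral_boundary_rect_eq_zero_of_differentiableOn
    (fun ψ => g ψ * (Complex.sin ((ψ - w) / 4) / Complex.cos ((ψ - w) / 4)))
    (⟨-π, -h⟩ : ℂ) (⟨π, h⟩ : ℂ) ?_
  · simpa [rect] using key
  · intro z hz
    rw [Complex.mem_reProdIm] at hz
    have hz1 := hz.1
    rw [Set.uIcc_of_le (by linarith)] at hz1
    apply DifferentiableAt.differentiableWithinAt
    apply DifferentiableAt.mul (hg z)
    apply DifferentiableAt.div (by fun_prop) (by fun_prop)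
    have e : ((z - w) / 4).re = (z.re - w) / 4 := by
      have : (z - w) / 4 = ((1 / 4 : ℝ) : ℂ) * (z - w) := by push_cast; ring
      rw [this, Complex.re_ofReal_mul, Complex.sub_re, Complex.ofReal_re]
      ring
    apply cos_ne
    · rw [e]; linarith [hz1.1]
    · rw [e]; linarith [hz1.2]

lemma csc_eq {w ψ : ℂ} (h : Complex.sin ((ψ - w) / 2) ≠ 0) :
    (Complex.sin ((ψ - w) / 2))⁻¹ =
      2 * KK w ψ + Complex.sin ((ψ - w) / 4) / Complex.cos ((ψ - w) / 4) := by
  have e : (ψ - w) / 2 = 2 * ((ψ - w) / 4) := by ring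
  unfold KK
  rw [e] at h ⊢
  rw [Complex.sin_two_mul] at h ⊢
  rw [Complex.cos_two_mul]
  have hs : Complex.sin ((ψ - w) / 4) ≠ 0 := by
    intro h0
    apply h
    rw [h0]
    ring
  have hc : Complex.cos ((ψ - w) / 4) ≠ 0 := by
    intro h0
    apply h
    rw [h0]
    ring
  have h1 := Complex.sin_sq_add_cos_sq ((ψ - w) / 4)
  field_simp
  linear_combination (-2) * h1

lemma rect_csc {g : ℂ → ℂ} (hg : Differentiable ℂ g) {w h : ℝ} (hh : 0 < h) (h0 : -π < w)
    (h1 : w < π) (hne : ∀ ψ ∈ Bd (-π) π (-h) h, Complex.sin ((ψ - w) / 2) ≠ 0) :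
    rect (fun ψ => g ψ * (Complex.sin ((ψ - w) / 2))⁻¹) (-π) π (-h) h =
      4 * π * Complex.I * g w := by
  have hp := Real.pi_pos
  have e : rect (fun ψ => g ψ * (Complex.sin ((ψ - w) / 2))⁻¹) (-π) π (-h) h =
      rect (fun ψ => 2 * (g ψ * KK w ψ) +
        g ψ * (Complex.sin ((ψ - w) / 4) / Complex.cos ((ψ - w) / 4))) (-π) π (-h) h := by
    apply rect_congr
    intro ψ hψ
    rw [csc_eq (hne ψ hψ)]
    ring
  have hRI1 : RI (fun ψ => g ψ * KK w ψ) (-π) π (-h) h := by
    apply RI_of_cont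
    intro z hz
    exact (hg.continuous.continuousAt).mul (KK_cont (hne z hz))
  have hRI1' : RI (fun ψ => 2 * (g ψ * KK w ψ)) (-π) π (-h) h :=
    ⟨hRI1.1.const_mul _, hRI1.2.1.const_mul _, hRI1.2.2.1.const_mul _, hRI1.2.2.2.const_mul _⟩
  have hRI2 : RI (fun ψ => g ψ * (Complex.sin ((ψ - w) / 4) / Complex.cos ((ψ - w) / 4)))
      (-π) π (-h) h := by
    apply RI_of_cont
    intro z hz
    apply ContinuousAt.mul hg.continuous.continuousAt
    apply ContinuousAt.div (by fun_prop) (by fun_prop)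
    intro hc
    apply hne z hz
    have e : (z - w) / 2 = 2 * ((z - w) / 4) := by ring
    rw [e, Complex.sin_two_mul, hc]
    ring
  rw [e, rect_add hRI1' hRI2, rect_mul, rect_KK hg hh h0 h1, rect_tan hg h0 h1]
  ring

/-- the integrand on the boundary -/
lemma HT_eq {p M k : ℕ} (hk : k < M) {h : ℝ} (hh : 0 < h) {ψ : ℂ}
    (hψ : ψ ∈ Bd (-π) π (-h) h) :
    HT p M k ψ = EX p M ψ * (-2 * Complex.sin (ψ / 2)) *
      (∏ j ∈ range (M - k), (2 * Complex.cos ψ - 2 * Complex.cos (ps M j)))⁻¹ := by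
  have hnz : ∀ j, j < M → 2 * Complex.cos ψ - 2 * Complex.cos (ps M j) ≠ 0 := by
    intro j hj h0
    exact bdp_ne hh (ps_pos M j) (ps_lt hj) (ps_ne_pi M j) hψ (by linear_combination (1 / 2) * h0)
  have hfull := prod_full M ψ
  have hsplit : ∏ j ∈ range M, (2 * Complex.cos ψ - 2 * Complex.cos (zz (2 * M + 1) 2 j)) =
      (∏ j ∈ range (M - k), (2 * Complex.cos ψ - 2 * Complex.cos (ps M j))) * RH M k (ψ + π) := by
    have h1 : range M = range (M - k + k) := by rw [Nat.sub_add_cancel hk.le]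
    rw [h1, Finset.prod_range_add]
    congr 1
    · apply Finset.prod_congr rfl
      intro j _
      rw [zz_ps]
    · unfold RH
      rw [← Finset.prod_range_reflect]
      apply Finset.prod_congr rfl
      intro j hj
      rw [Finset.mem_range] at hj
      have h2 : Complex.cos (zz (2 * M + 1) 2 (M - k + (k - 1 - j))) =
          (Real.cos (2 * π * (j + 1) / Rh M) : ℂ) := by
        rw [Complex.ofReal_cos]
        have h3 : zz (2 * M + 1) 2 (M - k + (k - 1 - j)) =
            2 * π - ((2 * π * (j + 1) / Rh M : ℝ) : ℂ) := by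
          have h4 : ((M - k + (k - 1 - j) : ℕ) : ℂ) = M - 1 - j := by
            have : M - k + (k - 1 - j) = M - 1 - j := by omega
            rw [this, Nat.cast_sub (by omega), Nat.cast_sub (by omega)]
            simp
          unfold zz
          rw [h4, Complex.ofReal_div, Rhc]
          have : ((2 * M + 1 : ℕ) : ℂ) ≠ 0 := by
            have : (2 * M + 1 : ℕ) ≠ 0 := by omega
            exact_mod_cast this
          push_cast
          push_cast at this
          field_simp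
          ring
        rw [h3, Complex.cos_two_pi_sub]
      rw [h2, Complex.cos_add_pi]
      ring
  have hD0 : ∏ j ∈ range (M - k), (2 * Complex.cos ψ - 2 * Complex.cos (ps M j)) ≠ 0 := by
    rw [Finset.prod_ne_zero_iff]
    intro j hj
    rw [Finset.mem_range] at hj
    exact hnz j (by omega)
  have hR0 : RH M k (ψ + π) ≠ 0 := by
    intro h0
    have h1 : ∏ j ∈ range M, (2 * Complex.cos ψ - 2 * Complex.cos (zz (2 * M + 1) 2 j)) ≠ 0 := by
      rw [Finset.prod_ne_zero_iff]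
      intro j hj
      rw [zz_ps]
      exact hnz j (Finset.mem_range.1 hj)
    rw [hsplit, h0, mul_zero] at h1
    exact h1 rfl
  have hcos : Complex.cos ((ψ + π) / 2) = -Complex.sin (ψ / 2) := by
    rw [show (ψ + π) / 2 = ψ / 2 + π / 2 by ring, Complex.cos_add_pi_div_two]
  rw [hsplit] at hfull
  unfold HT
  rw [← hfull, hcos]
  show EX p M ψ * (RH M k (ψ + π) * (2 * -Complex.sin (ψ / 2))) * Complex.sin (ψ / 2) / _ = _
  by_cases hs : Complex.sin (ψ / 2) = 0
  · rw [hs]
    simp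
  · field_simp

/-- the partial fractions -/
lemma pf_eq {w ψ : ℂ} (hw : Complex.cos (w / 2) ≠ 0) (h : Complex.cos ψ ≠ Complex.cos w) :
    -2 * Complex.sin (ψ / 2) * (2 * Complex.cos ψ - 2 * Complex.cos w)⁻¹ =
      (4 * Complex.cos (w / 2))⁻¹ *
        ((Complex.sin ((ψ - w) / 2))⁻¹ + (Complex.sin ((ψ - -w) / 2))⁻¹) := by
  obtain ⟨h1, h2⟩ := sin_ne h
  rw [cos_sub_eq ψ w, sub_neg_eq_add]
  have e1 : Complex.sin ((ψ + w) / 2) + Complex.sin ((ψ - w) / 2) =
      2 * Complex.sin (ψ / 2) * Complex.cos (w / 2) := by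
    rw [show (ψ + w) / 2 = ψ / 2 + w / 2 by ring, show (ψ - w) / 2 = ψ / 2 - w / 2 by ring,
      Complex.sin_add, Complex.sin_sub]
    ring
  field_simp
  linear_combination (-1) * e1

theorem res2 : S_RES2 := by
  intro p M k hk hk2 h hh
  have hp := Real.pi_pos
  set v : ℕ → ℂ := fun j => 2 * Complex.cos (ps M j) with hv
  have hinj : Set.InjOn v (range (M - k)) := by
    intro a ha b hb hab
    rw [Finset.coe_range, Set.mem_Iio] at ha hb
    have h1 : Complex.cos (ps M a) = Complex.cos (ps M b) := mul_left_cancel₀ two_ne_zero hab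
    rw [← Complex.ofReal_cos, ← Complex.ofReal_cos] at h1
    have h2 : Real.cos (ps M a) = Real.cos (ps M b) := by exact_mod_cast h1
    have h3 := Real.injOn_cos ⟨(ps_pos M a).le, (ps_lt_pi hk2 ha).le⟩
      ⟨(ps_pos M b).le, (ps_lt_pi hk2 hb).le⟩ h2
    unfold ps at h3
    rw [div_left_inj' (by positivity)] at h3
    have h4 : (2 * a + 1 : ℝ) = 2 * b + 1 := mul_left_cancel₀ (by positivity) h3
    have h5 : 2 * a + 1 = 2 * b + 1 := by exact_mod_cast h4
    omega
  have hcos : ∀ j ∈ range (M - k), Complex.cos ((ps M j : ℂ) / 2) ≠ 0 := by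
    intro j hj
    rw [Finset.mem_range] at hj
    have h1 := ps_pos M j
    have h2 := ps_lt_pi hk2 hj
    have e : ((ps M j : ℂ) / 2).re = ps M j / 2 := by
      have : (ps M j : ℂ) / 2 = ((ps M j / 2 : ℝ) : ℂ) := by push_cast; ring
      rw [this, Complex.ofReal_re]
    apply cos_ne
    · rw [e]; linarith
    · rw [e]; linarith
  have hne : ∀ j ∈ range (M - k), ∀ ψ ∈ Bd (-π) π (-h) h, Complex.cos ψ ≠ Complex.cos (ps M j) := by
    intro j hj ψ hψ
    rw [Finset.mem_range] at hj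
    exact bdp_ne hh (ps_pos M j) (ps_lt (by omega)) (ps_ne_pi M j) hψ
  have step1 : rect (HT p M k) (-π) π (-h) h = rect (fun ψ => ∑ j ∈ range (M - k),
      (Lagrange.nodalWeight (range (M - k)) v j * (4 * Complex.cos ((ps M j : ℂ) / 2))⁻¹) *
        (EX p M ψ * (Complex.sin ((ψ - (ps M j : ℝ)) / 2))⁻¹ +
          EX p M ψ * (Complex.sin ((ψ - ((-ps M j : ℝ) : ℂ)) / 2))⁻¹)) (-π) π (-h) h := by
    apply rect_congr
    intro ψ hψ
    have hne2 : ∀ j ∈ range (M - k), 2 * Complex.cos ψ ≠ v j := by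
      intro j hj h3
      exact hne j hj ψ hψ (mul_left_cancel₀ two_ne_zero h3)
    have h1 := Lagrange.eval_interpolate_not_at_node (s := range (M - k))
      (v := v) (1 : ℕ → ℂ) (x := 2 * Complex.cos ψ) hne2
    rw [Lagrange.interpolate_one hinj ⟨0, by simp; omega⟩, Polynomial.eval_one,
      Lagrange.eval_nodal] at h1
    have hQ0 : ∏ j ∈ range (M - k), (2 * Complex.cos ψ - v j) ≠ 0 := by
      intro h0
      rw [h0] at h1
      simp at h1
    have h2 : (∏ j ∈ range (M - k), (2 * Complex.cos ψ - v j))⁻¹ = ∑ i ∈ range (M - k),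
        Lagrange.nodalWeight (range (M - k)) v i * (2 * Complex.cos ψ - v i)⁻¹ := by
      rw [inv_eq_one_div, div_eq_iff hQ0, mul_comm]
      simpa using h1
    rw [HT_eq hk hh hψ]
    show EX p M ψ * (-2 * Complex.sin (ψ / 2)) *
      (∏ j ∈ range (M - k), (2 * Complex.cos ψ - v j))⁻¹ = _
    rw [h2, Finset.mul_sum]
    apply Finset.sum_congr rfl
    intro j hj
    have h4 := pf_eq (hcos j hj) (hne j hj ψ hψ)
    show EX p M ψ * (-2 * Complex.sin (ψ / 2)) * (Lagrange.nodalWeight (range (M - k)) v j *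
      (2 * Complex.cos ψ - 2 * Complex.cos (ps M j))⁻¹) = _
    rw [Complex.ofReal_neg]
    linear_combination (EX p M ψ * Lagrange.nodalWeight (range (M - k)) v j) * h4
  have hs1 : ∀ j ∈ range (M - k), ∀ ψ ∈ Bd (-π) π (-h) h,
      Complex.sin ((ψ - (ps M j : ℝ)) / 2) ≠ 0 := fun j hj ψ hψ => (sin_ne (hne j hj ψ hψ)).1
  have hs2 : ∀ j ∈ range (M - k), ∀ ψ ∈ Bd (-π) π (-h) h,
      Complex.sin ((ψ - ((-ps M j : ℝ) : ℂ)) / 2) ≠ 0 := by
    intro j hj ψ hψ
    rw [Complex.ofReal_neg, sub_neg_eq_add]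
    exact (sin_ne (hne j hj ψ hψ)).2
  have hRIg : ∀ w : ℝ, (∀ ψ ∈ Bd (-π) π (-h) h, Complex.sin ((ψ - w) / 2) ≠ 0) →
      RI (fun ψ => EX p M ψ * (Complex.sin ((ψ - w) / 2))⁻¹) (-π) π (-h) h := by
    intro w hw
    apply RI_of_cont
    intro z hz
    apply ContinuousAt.mul (EX_diff p M).continuous.continuousAt
    exact ContinuousAt.inv₀ (by fun_prop) (hw z hz)
  have hRI3 : ∀ j ∈ range (M - k), RI (fun ψ =>
      (Lagrange.nodalWeight (range (M - k)) v j * (4 * Complex.cos ((ps M j : ℂ) / 2))⁻¹) *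
        (EX p M ψ * (Complex.sin ((ψ - (ps M j : ℝ)) / 2))⁻¹ +
          EX p M ψ * (Complex.sin ((ψ - ((-ps M j : ℝ) : ℂ)) / 2))⁻¹)) (-π) π (-h) h := by
    intro j hj
    have := RI_add (hRIg _ (hs1 j hj)) (hRIg _ (hs2 j hj))
    exact ⟨this.1.const_mul _, this.2.1.const_mul _, this.2.2.1.const_mul _,
      this.2.2.2.const_mul _⟩
  have hfin : rect (HT p M k) (-π) π (-h) h = 4 * π * Complex.I * Sres p M k := by
    rw [step1, rect_sum _ hRI3]
    unfold Sres
    rw [Finset.mul_sum]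
    apply Finset.sum_congr rfl
    intro j hj
    have hj' := Finset.mem_range.1 hj
    have h1 := ps_pos M j
    have h2 := ps_lt_pi hk2 hj'
    rw [rect_mul, rect_add (hRIg _ (hs1 j hj)) (hRIg _ (hs2 j hj)),
      rect_csc (EX_diff p M) hh (by linarith) h2 (hs1 j hj),
      rect_csc (EX_diff p M) hh (by linarith) (by linarith) (hs2 j hj), Complex.ofReal_neg, EX_neg]
    have h3 : Lagrange.nodalWeight (range (M - k)) v j =
        (∏ i ∈ (range (M - k)).erase j, (2 * Complex.cos (ps M j) - 2 * Complex.cos (ps M i)))⁻¹ := by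
      unfold Lagrange.nodalWeight
      rw [Finset.prod_inv_distrib]
    rw [h3]
    show _ = 4 * π * Complex.I * (EX p M (ps M j) / (2 * Complex.cos ((ps M j : ℂ) / 2)) * _)
    have h4 := hcos j hj
    generalize (∏ i ∈ (range (M - k)).erase j,
      (2 * Complex.cos (ps M j) - 2 * Complex.cos (ps M i)))⁻¹ = c
    field_simp
    ring
  rw [hfin, norm_mul]
  congr 1
  rw [norm_mul, norm_mul, Complex.norm_I, Complex.norm_real, Real.norm_eq_abs, abs_of_pos hp]
  norm_num

end Pool.Agent.H17.CYC
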